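import Pool.Agent.Morse.Final

set_option autoImplicit false

/-!
MP_cd2f9b_nt, Q1: the 2-adic number `α`, the structure of `L n - C n`, and the identity of Q1 for
all `n` outside an extremely sparse set.

`morse n` is `L n` (sum over Dyck words of semilength `n`, an up-step that starts at height `h` has
weight `(2h+1)²`), `catalan n` is `C n`.
-/

namespace Pool.Agent.Results.MP_cd2f9b_nt.AlphaExists

open Pool.Agent.Morse

theorem result : ∃ α : ℤ_[2],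
    (∃ γ : ℤ_[2], α = 23 + 64 * γ) ∧
    (∀ n : ℕ, ∃ (u : ℤ_[2]ˣ) (H : ℤ), ((morse n - catalan n : ℤ) : ℤ_[2]) =
      2 ^ ((Nat.digits 2 n).sum + 2) * u * ((n : ℤ_[2]) - α) - 4 ^ (n + 1) * (H : ℤ_[2])) ∧
    (∀ n : ℕ, (n : ℤ_[2]) ≠ α →
      (Nat.digits 2 n).sum + ((n : ℤ_[2]) - α).valuation < 2 * n → Ident morse α n) ∧
    (∀ n : ℕ, 2 ≤ n → n ≤ 854 → Ident morse α n) ∧
    (∀ n m : ℕ, n < m → ¬ Ident morse α n → ¬ Ident morse α m →
      n + 2 ^ (2 * n - (Nat.digits 2 n).sum) ≤ m) ∧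
    (∀ (β : ℤ_[2]) (N : ℕ), (∀ n : ℕ, N ≤ n → Ident morse β n) → β = α) := by
  obtain ⟨α, hF⟩ := morse_formula
  refine ⟨α, ?_, hF, fun n h1 h2 => ident_of hF h1 h2, fun n h1 h2 => ident_small hF h1 h2,
    fun n m h h1 h2 => sparse hF h h1 h2, fun β N h => eq_of_ident hF h⟩
  obtain ⟨γ, hγ⟩ := alpha_mod hF
  exact ⟨13 + 16 * γ, by rw [hγ]; ring⟩

end Pool.Agent.Results.MP_cd2f9b_nt.AlphaExists
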